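import Pool.Agent.Helper99.DF.St

/-! Project DF, module A6: double exponential rate of convergence. -/

set_option autoImplicit false

namespace Pool.Agent.Helper29.DF

open Pool.Agent.Helper99.DF
open Filter Topology

/-- Iteration of `D t ≤ D (t+1) / 2 + K E t`. -/
theorem seq_bound (D E : ℕ → ℝ) (L K : ℝ) (hK : 0 ≤ K) (hD : ∀ t, D t ≤ L)
    (hE : ∀ s t, s ≤ t → E t ≤ E s) (t0 : ℕ)
    (h : ∀ t, t0 ≤ t → D t ≤ D (t + 1) / 2 + E t * K) :
    ∀ t, t0 ≤ t → D t ≤ 2 * (E t * K) := by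
  intro t ht
  have h1 : ∀ j : ℕ, D t ≤ D (t + j) / 2 ^ j + 2 * (E t * K) * (1 - 1 / 2 ^ j) := by
    intro j
    induction j with
    | zero => simp
    | succ j ih =>
      have h2 := h (t + j) (by omega)
      have h3 : E (t + j) * K ≤ E t * K := mul_le_mul_of_nonneg_right (hE t (t + j) (by omega)) hK
      have h4 : (0 : ℝ) < 2 ^ j := by positivity
      have h5 : D (t + j) / 2 ^ j ≤ (D (t + (j + 1)) / 2 + E t * K) / 2 ^ j := by
        apply div_le_div_of_nonneg_right _ h4.le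
        rw [← Nat.add_assoc]
        linarith
      have h6 : (D (t + (j + 1)) / 2 + E t * K) / 2 ^ j + 2 * (E t * K) * (1 - 1 / 2 ^ j) =
          D (t + (j + 1)) / 2 ^ (j + 1) + 2 * (E t * K) * (1 - 1 / 2 ^ (j + 1)) := by
        rw [pow_succ]
        field_simp
        ring
      linarith
  have h2 : ∀ j : ℕ, D t ≤ L * (1 / 2) ^ j + 2 * (E t * K) * (1 - (1 / 2) ^ j) := by
    intro j
    have h3 := h1 j
    have h4 : D (t + j) / 2 ^ j ≤ L * (1 / 2) ^ j := by
      rw [one_div, inv_pow, ← div_eq_mul_inv]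
      exact div_le_div_of_nonneg_right (hD _) (by positivity)
    have h5 : (1 : ℝ) / 2 ^ j = (1 / 2) ^ j := by
      rw [one_div, one_div, inv_pow]
    rw [h5] at h3
    linarith
  have h3 : Tendsto (fun j : ℕ => L * (1 / 2 : ℝ) ^ j + 2 * (E t * K) * (1 - (1 / 2) ^ j)) atTop
      (𝓝 (L * 0 + 2 * (E t * K) * (1 - 0))) := by
    have h4 : Tendsto (fun j : ℕ => (1 / 2 : ℝ) ^ j) atTop (𝓝 0) :=
      tendsto_pow_atTop_nhds_zero_of_lt_one (by norm_num) (by norm_num)
    exact (h4.const_mul L).add ((tendsto_const_nhds.sub h4).const_mul _)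
  have h4 := ge_of_tendsto' h3 h2
  linarith

theorem log_low {x : ℝ} (h0 : 0 ≤ x) (h1 : x ≤ 1 / 2) : -(2 * x) ≤ Real.log (1 - x) := by
  have h2 : (0 : ℝ) < 1 - x := by linarith
  have h3 := Real.one_sub_inv_le_log_of_pos h2
  have h4 : (1 - x)⁻¹ ≤ 1 + 2 * x := by
    rw [inv_eq_one_div, div_le_iff₀ h2]
    nlinarith
  linarith

theorem hA6 (h1 : StGR) : StA6 := by
  intro S b al G F c0 hper hG hb hcc hc0 hgap hF
  rcases S.eq_empty_or_nonempty with rfl | hS
  · exact ⟨0, fun t k hk => absurd hk (Finset.notMem_empty k)⟩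
  have hG0 : (0 : ℝ) < G := by linarith
  have hup : ∀ t, ∀ k ∈ S, gg b al t k ≤ G := by
    intro t k hk
    have h2 := (hb t k hk).2
    unfold gg
    calc (T^[t] b) k * Real.exp (-(2 ^ t * al k))
        ≤ (G * Real.exp (2 ^ t * al k)) * Real.exp (-(2 ^ t * al k)) :=
          mul_le_mul_of_nonneg_right h2 (Real.exp_pos _).le
      _ = G := by rw [mul_assoc, ← Real.exp_add]; simp
  have hF1 : ∀ k ∈ S, 1 ≤ F k := fun k hk => (hF k hk).1
  have hF0 : ∀ k ∈ S, 0 < F k := fun k hk => by linarith [hF1 k hk]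
  have hFg : ∀ t, ∀ k ∈ S, F k ≤ gg b al t k := fun t k hk => (hF k hk).2.1 t
  -- the maximal ratio
  let R : ℕ → ℝ := fun t => S.sup' hS (fun k => gg b al t k / F k)
  have hRle : ∀ t, ∀ k ∈ S, gg b al t k / F k ≤ R t := fun t k hk =>
    Finset.le_sup' (fun k => gg b al t k / F k) hk
  have hRle' : ∀ t, ∀ k ∈ S, gg b al t k ≤ R t * F k := fun t k hk => by
    have h2 := hRle t k hk
    rwa [div_le_iff₀ (hF0 k hk)] at h2
  have hR1 : ∀ t, 1 ≤ R t := by
    intro t
    obtain ⟨k, hk⟩ := hS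
    refine le_trans ?_ (hRle t k hk)
    rw [le_div_iff₀ (hF0 k hk), one_mul]
    exact hFg t k hk
  have hRG : ∀ t, R t ≤ G := by
    intro t
    refine Finset.sup'_le hS _ fun k hk => ?_
    rw [div_le_iff₀ (hF0 k hk)]
    nlinarith [hup t k hk, hF1 k hk]
  -- the step
  have hstep : ∀ t, R t ^ 2 - Real.exp (-(c0 * 2 ^ t)) * G ^ 2 ≤ R (t + 1) := by
    intro t
    obtain ⟨k, hk, hkR⟩ := Finset.exists_mem_eq_sup' hS (fun k => gg b al t k / F k)
    have hkR' : gg b al t k = R t * F k := by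
      have h2 : R t = gg b al t k / F k := hkR
      rw [h2, div_mul_cancel₀ _ (hF0 k hk).ne']
    have hE0 : 0 ≤ Real.exp (-(c0 * 2 ^ t)) * G ^ 2 := by positivity
    have hR0 : 0 < R t := by linarith [hR1 t]
    have key : R t ^ 2 * F k - Real.exp (-(c0 * 2 ^ t)) * G ^ 2 ≤ gg b al (t + 1) k := by
      obtain ⟨hgr1, hgr2⟩ := h1 S b al hper t k hk
      by_cases hact : k ∈ act S
      · rw [hgr1 hact, hkR']
        obtain ⟨-, hkm, hkp⟩ := mem_act.1 hact
        have hm := hRle' t (k - 1) hkm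
        have hp := hRle' t (k + 1) hkp
        have hm0 : 0 ≤ gg b al t (k - 1) := by linarith [hFg t _ hkm, hF0 _ hkm]
        have hp0 : 0 ≤ gg b al t (k + 1) := by linarith [hFg t _ hkp, hF0 _ hkp]
        rcases (hcc k hact).lt_or_eq with hpos | hzero
        · -- rate positive
          have hFk : F k = 1 := (hF k hk).2.2.1 (Or.inr hpos)
          have hgapk := hgap k hact hpos
          have h3 : Real.exp (-(2 ^ t * cc al k)) ≤ Real.exp (-(c0 * 2 ^ t)) := by
            apply Real.exp_le_exp.2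
            have h4 : (0 : ℝ) < 2 ^ t := by positivity
            nlinarith
          have h4 : gg b al t (k - 1) * gg b al t (k + 1) ≤ G * G :=
            mul_le_mul (hup t _ hkm) (hup t _ hkp) hp0 hG0.le
          have h5 : Real.exp (-(2 ^ t * cc al k)) * (gg b al t (k - 1) * gg b al t (k + 1)) ≤
              Real.exp (-(c0 * 2 ^ t)) * (G * G) :=
            mul_le_mul h3 h4 (mul_nonneg hm0 hp0) (Real.exp_pos _).le
          rw [hFk]
          have h6 : Real.exp (-(c0 * 2 ^ t)) * (G * G) = Real.exp (-(c0 * 2 ^ t)) * G ^ 2 := by ring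
          rw [h6] at h5
          have h7 : R t ^ 2 * 1 = (R t * 1) ^ 2 := by ring
          linarith
        · -- rate zero
          have hFeq := (hF k hk).2.2.2 hact hzero.symm
          have h3 : Real.exp (-(2 ^ t * cc al k)) = 1 := by
            rw [← hzero]; simp
          rw [h3, one_mul]
          have h4 : gg b al t (k - 1) * gg b al t (k + 1) ≤ (R t * F (k - 1)) * (R t * F (k + 1)) :=
            mul_le_mul hm hp hp0 (mul_nonneg hR0.le (hF0 _ hkm).le)
          have h5 : R t ^ 2 * F k = (R t * F k) ^ 2 - (R t * F (k - 1)) * (R t * F (k + 1)) := by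
            rw [← hFeq]
            have h6 : R t ^ 2 * (F k ^ 2 - F (k - 1) * F (k + 1)) =
              (R t * F k) ^ 2 - (R t * F (k - 1)) * (R t * F (k + 1)) := by ring
            rw [h6, hFeq]
          linarith
      · rw [hgr2 hact, hkR']
        have hFk : F k = 1 := (hF k hk).2.2.1 (Or.inl hact)
        rw [hFk]
        have h7 : R t ^ 2 * 1 = (R t * 1) ^ 2 := by ring
        linarith
    have h2 := hRle' (t + 1) k hk
    have h3 : (R t ^ 2 - Real.exp (-(c0 * 2 ^ t)) * G ^ 2) * F k ≤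
        R t ^ 2 * F k - Real.exp (-(c0 * 2 ^ t)) * G ^ 2 := by
      nlinarith [hF1 k hk]
    exact le_of_mul_le_mul_right (h3.trans (key.trans h2)) (hF0 k hk)
  -- threshold
  obtain ⟨t0, ht0⟩ := pow_unbounded_of_one_lt (Real.log (2 * G ^ 2) / c0) (by norm_num : (1 : ℝ) < 2)
  have hEsm : ∀ t, t0 ≤ t → Real.exp (-(c0 * 2 ^ t)) * G ^ 2 ≤ 1 / 2 := by
    intro t ht
    have h2 : (2 : ℝ) ^ t0 ≤ 2 ^ t := pow_le_pow_right₀ (by norm_num) ht
    have h3 : Real.log (2 * G ^ 2) ≤ c0 * 2 ^ t := by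
      rw [div_lt_iff₀ hc0] at ht0
      nlinarith
    have h4 : Real.exp (-(c0 * 2 ^ t)) ≤ Real.exp (-(Real.log (2 * G ^ 2))) :=
      Real.exp_le_exp.2 (by linarith)
    rw [Real.exp_neg (Real.log _), Real.exp_log (by positivity)] at h4
    calc Real.exp (-(c0 * 2 ^ t)) * G ^ 2 ≤ (2 * G ^ 2)⁻¹ * G ^ 2 :=
          mul_le_mul_of_nonneg_right h4 (by positivity)
      _ = 1 / 2 := by field_simp
  have hEanti : ∀ s t : ℕ, s ≤ t → Real.exp (-(c0 * 2 ^ t)) ≤ Real.exp (-(c0 * 2 ^ s)) := by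
    intro s t hst
    apply Real.exp_le_exp.2
    have h2 : (2 : ℝ) ^ s ≤ 2 ^ t := pow_le_pow_right₀ (by norm_num) hst
    nlinarith
  have hD := seq_bound (fun t => Real.log (R t)) (fun t => Real.exp (-(c0 * 2 ^ t))) (Real.log G)
    (G ^ 2) (by positivity)
    (fun t => Real.log_le_log (by linarith [hR1 t]) (hRG t)) hEanti t0 (by
      intro t ht
      have h2 := hEsm t ht
      have h3 : 0 ≤ Real.exp (-(c0 * 2 ^ t)) * G ^ 2 := by positivity
      have h4 := log_low h3 h2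
      have h5 : R t ^ 2 * (1 - Real.exp (-(c0 * 2 ^ t)) * G ^ 2) ≤ R (t + 1) := by
        refine le_trans ?_ (hstep t)
        nlinarith [hR1 t, mul_nonneg h3 (by nlinarith [hR1 t] : (0 : ℝ) ≤ R t ^ 2 - 1)]
      have hR0 : 0 < R t := by linarith [hR1 t]
      have h6 : (0 : ℝ) < 1 - Real.exp (-(c0 * 2 ^ t)) * G ^ 2 := by linarith
      have h7 := Real.log_le_log (by positivity) h5
      rw [Real.log_mul (by positivity) h6.ne', Real.log_pow] at h7
      push_cast at h7
      show Real.log (R t) ≤ Real.log (R (t + 1)) / 2 + Real.exp (-(c0 * 2 ^ t)) * G ^ 2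
      linarith)
  refine ⟨2 * G ^ 4 + G * Real.exp (c0 * 2 ^ t0), fun t k hk => ?_⟩
  have hnn : 0 ≤ gg b al t k - F k := by linarith [hFg t k hk]
  rw [abs_of_nonneg hnn]
  rcases le_or_gt t0 t with ht | ht
  · have h2 := hD t ht
    have h2' : Real.log (R t) ≤ 2 * (Real.exp (-(c0 * 2 ^ t)) * G ^ 2) := h2
    have hR0 : 0 < R t := by linarith [hR1 t]
    have hL0 : 0 ≤ Real.log (R t) := Real.log_nonneg (hR1 t)
    -- R - 1 ≤ R log R
    have h3 : R t - 1 ≤ R t * Real.log (R t) := by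
      have h4 := Real.one_sub_inv_le_log_of_pos hR0
      have h5 : R t * (1 - (R t)⁻¹) ≤ R t * Real.log (R t) := mul_le_mul_of_nonneg_left h4 hR0.le
      have h6 : R t * (1 - (R t)⁻¹) = R t - 1 := by field_simp
      linarith
    have h4 : R t * Real.log (R t) ≤ G * (2 * (Real.exp (-(c0 * 2 ^ t)) * G ^ 2)) :=
      mul_le_mul (hRG t) h2' hL0 hG0.le
    have hFG : F k ≤ G := (hFg t k hk).trans (hup t k hk)
    have h5 : gg b al t k - F k ≤ (R t - 1) * F k := by linarith [hRle' t k hk]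
    have h6 : (R t - 1) * F k ≤ (G * (2 * (Real.exp (-(c0 * 2 ^ t)) * G ^ 2))) * G :=
      mul_le_mul (h3.trans h4) hFG (hF0 k hk).le (by positivity)
    have h7 : 0 ≤ G * Real.exp (c0 * 2 ^ t0) * Real.exp (-(c0 * 2 ^ t)) := by positivity
    nlinarith
  · have h2 : gg b al t k - F k ≤ G := by linarith [hup t k hk, hF0 k hk]
    have h3 : (1 : ℝ) ≤ Real.exp (c0 * 2 ^ t0) * Real.exp (-(c0 * 2 ^ t)) := by
      rw [← Real.exp_add]
      apply Real.one_le_exp
      have h4 : (2 : ℝ) ^ t ≤ 2 ^ t0 := pow_le_pow_right₀ (by norm_num) ht.le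
      nlinarith
    have h4 : 0 ≤ 2 * G ^ 4 * Real.exp (-(c0 * 2 ^ t)) := by positivity
    nlinarith

end Pool.Agent.Helper29.DF
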