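import Pool.Agent.Helper99.DF.St

/-! Project DF, module PRC: the certificate check is primitive recursive. -/

set_option autoImplicit false

namespace Pool.Agent.Helper29.DF

open Pool.Agent.Helper99.DF

theorem hPRC (h1 : StPR5) (h2 : StPR6) (h3 : StPR7) (h4 : StPR8) (h5 : StPR9) : StPRC := by
  -- projections
  have pl : Primrec (fun q : List ℤ × Cert => q.1) := Primrec.fst
  have pc : Primrec (fun q : List ℤ × Cert => q.2) := Primrec.snd
  have pa : Primrec (fun q : List ℤ × Cert => q.2.1) := Primrec.fst.comp pc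
  have pb : Primrec (fun q : List ℤ × Cert => q.2.2) := Primrec.snd.comp pc
  have pa1 : Primrec (fun q : List ℤ × Cert => q.2.1.1) := Primrec.fst.comp pa
  have pa2 : Primrec (fun q : List ℤ × Cert => q.2.1.2) := Primrec.snd.comp pa
  have pb1 : Primrec (fun q : List ℤ × Cert => q.2.2.1) := Primrec.fst.comp pb
  have pb2 : Primrec (fun q : List ℤ × Cert => q.2.2.2) := Primrec.snd.comp pb
  have pD : Primrec (fun q : List ℤ × Cert => q.2.1.1.1) := Primrec.fst.comp pa1
  have pa12 : Primrec (fun q : List ℤ × Cert => q.2.1.1.2) := Primrec.snd.comp pa1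
  have pe0 : Primrec (fun q : List ℤ × Cert => q.2.1.1.2.1) := Primrec.fst.comp pa12
  have pa122 : Primrec (fun q : List ℤ × Cert => q.2.1.1.2.2) := Primrec.snd.comp pa12
  have pN : Primrec (fun q : List ℤ × Cert => q.2.1.1.2.2.1) := Primrec.fst.comp pa122
  have ps : Primrec (fun q : List ℤ × Cert => q.2.1.1.2.2.2) := Primrec.snd.comp pa122
  have pCc : Primrec (fun q : List ℤ × Cert => q.2.1.2.1) := Primrec.fst.comp pa2
  have pa22 : Primrec (fun q : List ℤ × Cert => q.2.1.2.2) := Primrec.snd.comp pa2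
  have pMg : Primrec (fun q : List ℤ × Cert => q.2.1.2.2.1) := Primrec.fst.comp pa22
  have pa222 : Primrec (fun q : List ℤ × Cert => q.2.1.2.2.2) := Primrec.snd.comp pa22
  have pDq : Primrec (fun q : List ℤ × Cert => q.2.1.2.2.2.1) := Primrec.fst.comp pa222
  have pDg : Primrec (fun q : List ℤ × Cert => q.2.1.2.2.2.2) := Primrec.snd.comp pa222
  have pZs : Primrec (fun q : List ℤ × Cert => q.2.2.1.1) := Primrec.fst.comp pb1
  have pb12 : Primrec (fun q : List ℤ × Cert => q.2.2.1.2) := Primrec.snd.comp pb1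
  have plo : Primrec (fun q : List ℤ × Cert => q.2.2.1.2.1) := Primrec.fst.comp pb12
  have pb122 : Primrec (fun q : List ℤ × Cert => q.2.2.1.2.2) := Primrec.snd.comp pb12
  have phi : Primrec (fun q : List ℤ × Cert => q.2.2.1.2.2.1) := Primrec.fst.comp pb122
  have pb1222 : Primrec (fun q : List ℤ × Cert => q.2.2.1.2.2.2) := Primrec.snd.comp pb122
  have plo2 : Primrec (fun q : List ℤ × Cert => q.2.2.1.2.2.2.1) := Primrec.fst.comp pb1222
  have phi2 : Primrec (fun q : List ℤ × Cert => q.2.2.1.2.2.2.2) := Primrec.snd.comp pb1222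
  have pents : Primrec (fun q : List ℤ × Cert => q.2.2.2.1) := Primrec.fst.comp pb2
  have pqs : Primrec (fun q : List ℤ × Cert => q.2.2.2.2) := Primrec.snd.comp pb2
  have plen : Primrec (fun q : List ℤ × Cert => q.1.length) := Primrec.list_length.comp pl
  obtain ⟨hS, hC, hZ, hY⟩ := h1
  obtain ⟨hB, hO, hD⟩ := h2
  obtain ⟨hR, hP⟩ := h4
  have kS := hS.comp pl
  have kC := hC.comp (pl.pair (pZs.pair pents))
  have kZ := hZ.comp (pl.pair ((pD.pair pe0).pair pZs))
  have kY := hY.comp (pl.pair (pD.pair ((plo.pair phi).pair pents)))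
  have kB := hB.comp ((plen.pair (pD.pair (pe0.pair pCc))).pair ((pZs.pair (plo.pair phi)).pair pents))
  have kO := hO.comp (pD.pair ((plo.pair (phi.pair (plo2.pair phi2))).pair pents))
  have kM := h3.comp ((pD.pair (pe0.pair (pN.pair pMg))).pair
    ((pZs.pair (plo.pair (phi.pair (plo2.pair phi2)))).pair pents))
  have kD := hD.comp ((pD.pair (pe0.pair pN)).pair ((pCc.pair pMg).pair pZs))
  have kR := hR.comp (pl.pair ((pD.pair (pe0.pair pN)).pair (pZs.pair pents)))
  have kP := hP.comp (pl.pair ((pN.pair ps).pair (pZs.pair pents)))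
  have kI := h5.comp ((plen.pair (pN.pair (ps.pair (pDq.pair pDg)))).pair
    (pZs.pair (pents.pair pqs)))
  exact kS.and (kC.and (kZ.and (kY.and (kB.and (kO.and (kM.and (kD.and (kR.and
    (kP.and kI)))))))))

end Pool.Agent.Helper29.DF
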